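import Pool.Agent.N938.CC.Lin

set_option autoImplicit false

/-!
# Strings of consecutive primes with long almost prime chains

For `T y = a y + b`, `a ≥ 2`, without obstruction (for every prime `p` there is `n` with `p` dividing
none of `n, T n, …, T^k n`), for example for the chains of the first kind (`a = 2`, `b = 1`): in every
large set `S` of shifts one finds many `s` such that the primes in `[x, x + max S]` are exactly the
numbers `x + s`, all of them are `≡ c` modulo `q`, and all the `T^i (x + s)`, `1 ≤ i ≤ k`, have at most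
`r` prime factors, all of them at least `N ^ δ`; and this with the same shifts for all terms `x` of a
progression of any given length with a difference below a power of `log N`.
-/

namespace Pool.Agent.Results.MP_c77da8_nt.ConsecutivePrimes

open Finset Filter
open Pool.Agent.N938.CC (AlmostPrime Admissible general)

/-- The map `y ↦ a y + b` of a chain; `a = 2`, `b = 1` for chains of the first kind. -/
def T (a : ℕ) (b : ℤ) (y : ℤ) : ℤ := a * y + b

/-- For every prime `p` some natural `n` has `p ∤ T^i n` for all `0 ≤ i ≤ k`. -/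
def NoObstruction (a : ℕ) (b : ℤ) (k : ℕ) : Prop :=
  ∀ p : ℕ, p.Prime → ∃ n : ℕ, ∀ i ≤ k, ¬ (p : ℤ) ∣ (T a b)^[i] n

theorem iter (a : ℕ) (b : ℤ) (i : ℕ) (y : ℤ) :
    (T a b)^[i] y = b * ∑ j ∈ range i, (a : ℤ) ^ j + y * ((a ^ i : ℕ) : ℤ) := by
  induction i with
  | zero => simp
  | succ i ih =>
    rw [Function.iterate_succ_apply', ih]
    have h : ∑ j ∈ range (i + 1), (a : ℤ) ^ j = a * ∑ j ∈ range i, (a : ℤ) ^ j + 1 := by
      rw [sum_range_succ', pow_zero, mul_sum]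
      congr 1
      exact sum_congr rfl fun j _ => by ring
    rw [h]
    unfold T
    push_cast
    ring

theorem first_kind (k : ℕ) : NoObstruction 2 1 k := by
  intro p hp
  refine ⟨p - 1, fun i _ h => ?_⟩
  have h1 : ∀ j : ℕ, (T 2 1)^[j] (-1) = -1 := by
    intro j
    exact Function.iterate_fixed (by unfold T; norm_num) j
  have h2 : (p : ℤ) ∣ (T 2 1)^[i] ((p - 1 : ℕ) : ℤ) - (T 2 1)^[i] (-1) := by
    rw [iter, iter]
    have e : 1 * ∑ j ∈ range i, ((2 : ℕ) : ℤ) ^ j + ((p - 1 : ℕ) : ℤ) * ((2 ^ i : ℕ) : ℤ) -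
        (1 * ∑ j ∈ range i, ((2 : ℕ) : ℤ) ^ j + -1 * ((2 ^ i : ℕ) : ℤ)) = p * ((2 ^ i : ℕ) : ℤ) := by
      rw [Nat.cast_sub hp.one_le]
      push_cast
      ring
    rw [e]
    exact dvd_mul_right _ _
  rw [h1] at h2
  have h3 : (p : ℤ) ∣ -1 := by
    have h4 := dvd_sub h h2
    have e : (T 2 1)^[i] ((p - 1 : ℕ) : ℤ) - ((T 2 1)^[i] ((p - 1 : ℕ) : ℤ) - -1) = -1 := by ring
    rwa [e] at h4
  have h5 : (p : ℤ) ∣ 1 := by simpa using h3
  exact hp.one_lt.ne' (Nat.dvd_one.1 (by exact_mod_cast h5))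

theorem second_kind (k : ℕ) : NoObstruction 2 (-1) k := by
  intro p hp
  refine ⟨1, fun i _ h => ?_⟩
  have h1 : (T 2 (-1))^[i] ((1 : ℕ) : ℤ) = 1 := by
    push_cast
    exact Function.iterate_fixed (by unfold T; norm_num) i
  rw [h1] at h
  exact hp.one_lt.ne' (Nat.dvd_one.1 (by exact_mod_cast h))

theorem result :
    -- the chains of the first and of the second kind have no obstruction
    (∀ k, NoObstruction 2 1 k) ∧ (∀ k, NoObstruction 2 (-1) k) ∧
    ∀ (a : ℕ) (b : ℤ), 2 ≤ a → ∀ k, NoObstruction a b k →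
    ∀ q c : ℕ, Squarefree q → (∀ i ≤ k, IsCoprime ((T a b)^[i] c) (q : ℤ)) →
    ∀ m : ℕ, ∃ (K r : ℕ) (δ : ℝ), 0 < δ ∧ ∀ S : Finset ℕ, K ≤ S.card → ∀ l : ℕ,
      ∃ B : ℕ, ∀ᶠ N : ℕ in atTop, ∃ H ⊆ S, m ≤ H.card ∧ ∃ n D : ℕ, 1 ≤ D ∧
        (D : ℝ) ≤ Real.log N ^ B ∧ ∀ j < l, N < n + j * D ∧ n + j * D + S.sup id ≤ 2 * N ∧
          (∀ y ≤ S.sup id, (n + j * D + y).Prime ↔ y ∈ H) ∧
          ∀ s ∈ H, n + j * D + s ≡ c [MOD q] ∧
            ∀ i, 1 ≤ i → i ≤ k → AlmostPrime r ((N : ℝ) ^ δ) ((T a b)^[i] (n + j * D + s : ℕ)) := by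
  refine ⟨first_kind, second_kind, fun a b ha k hno q c hq hc m => ?_⟩
  set A : Fin k → ℤ := fun i => b * ∑ j ∈ range (i + 1), (a : ℤ) ^ j with hA
  set d : Fin k → ℕ := fun i => a ^ ((i : ℕ) + 1) with hd
  have hT : ∀ (i : Fin k) (y : ℤ), A i + y * (d i : ℤ) = (T a b)^[i + 1] y := fun i y => by
    rw [iter]
  have hd0 : ∀ i, 0 < d i := fun i => by
    have : 0 < a := by omega
    positivity
  have hd2 : ∀ i, d i ≠ 1 := fun i h => by
    have h1 : 1 < a ^ ((i : ℕ) + 1) := Nat.one_lt_pow (by omega) (by omega)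
    exact absurd h h1.ne'
  have hadm : Admissible A d := by
    intro p hp
    obtain ⟨n, hn⟩ := hno p hp
    refine ⟨n, fun h => hn 0 (by omega) ?_, fun i => ?_⟩
    · simpa using Int.natCast_dvd_natCast.2 h
    · rw [hT]
      exact hn _ (by omega)
  have hcop : IsCoprime ((c : ℤ) * ∏ i, (A i + c * d i)) (q : ℤ) := by
    apply IsCoprime.mul_left
    · simpa using hc 0 (by omega)
    · apply IsCoprime.prod_left
      intro i _
      rw [hT]
      exact hc _ (by omega)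
  obtain ⟨K, r, δ, hδ, hmain⟩ := (general.2 k A d hd0 hadm q c hq hcop) m
  refine ⟨K, r, δ, hδ, fun S hS l => ?_⟩
  obtain ⟨B, hB⟩ := hmain S hS l
  refine ⟨B, ?_⟩
  filter_upwards [hB] with N hN
  obtain ⟨H, hH, hHm, n, D, h1, h2, h3⟩ := hN
  refine ⟨H, hH, hHm, n, D, h1, h2, fun j hj => ?_⟩
  obtain ⟨g1, g2, g3, g4⟩ := h3 j hj
  refine ⟨g1, g2, fun y hy => ⟨fun hp => ?_, fun hyH => (g3 y hyH).1⟩, fun s hs => ?_⟩
  · by_contra hyH
    exact g4 y hy hyH (fun s _ i hi => absurd hi (hd2 i)) hp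
  · obtain ⟨g5, g6, g7⟩ := g3 s hs
    refine ⟨g6, fun i hi1 hik => ?_⟩
    have h7 := g7 ⟨i - 1, by omega⟩
    rw [hT] at h7
    have e : i - 1 + 1 = i := by omega
    simp only [e] at h7
    exact h7

end Pool.Agent.Results.MP_c77da8_nt.ConsecutivePrimes
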