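import Mathlib
import Pool.Agent.N790.BP.KArr

/-!
# Up to bounded shifts, most rows of every infinite array of positions belong to one infinite exact pattern

The numbers `b ^ t n + u`, `t = 0, 1, 2, …`, form for `b = 2` and `u = -1` a sequence in which every term is
twice the preceding one plus `1`: Cunningham chains of the first kind are the runs of primes in such sequences.
Here `b ≥ 2` is any base and `u` any integer prime to `b`.

Let `(k_j)` and `(m_j)` be any sequences of natural numbers and `ε > 0`. There are numbers `C_0, C_1, C_2, …`,
which depend on nothing else but `b` and `u`, with the following property.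

For EVERY sequence `V_0, V_1, V_2, …` of finite sets of positions `t` with `|V_j| ≤ k_j` there is a set `S` of
positions such that

* `S` is an exact pattern: for every finite set `T` of positions there are infinitely many `n` for which the
  `t ∈ T` with `b ^ t n + u` prime are exactly the elements of `S ∩ T` (with `T = {0, …, M}`: the primes among the
  first `M + 1` terms of the sequence are at the positions in `S`);
* for most `j` the set `S` has at least `m_j` elements in `[v, v + C_j]` for all but at most `ε |V_j|` of the
  elements `v` of `V_j` (for all of them, if `|V_j| < 1 / ε`): the set of these `j` has upper density at least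
  `1 - ε`, and more generally a weight of at least `1 - ε` for infinitely many of any given finitely supported
  probability weights `p_0, p_1, …` on the natural numbers.

The starting files contain infinite exact patterns inside any infinite set of positions (`InfinitePatterns`,
an unknown infinite part of it), and finitely many positions at several scales (`CommonPositions`). Here the rows
are followed up to a bounded error, the bound for the `j`-th row depending on `j` only, and only a proportion `ε`
of the rows is lost.

The proof (`Pool.Agent.N790.BP.KLeaf`, `KConf`, `KLim`, `KArr`): the block theorem of the starting files for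
infinite sequences of linear forms (`Pool.Agent.H361R2.Inf`) gives a proportion `1 / 500`; a configuration
with a small proportion placed inside the neighbourhoods belonging to another one (shifted) has a proportion
which is the product, so that the proportion is at least `1 - ε` for suitable `C_j`; then duality and the finitely
additive intersectivity lemma give one set `S` for an infinite sequence.
-/

set_option autoImplicit false

namespace Pool.Agent.Results.MP_c77da8_nt.MostRowsOfPositions

/-- `S` is an exact pattern of positions of primes in the sequences `n + u, b n + u, b ^ 2 n + u, …` -/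
def ExactPattern (b : ℕ) (u : ℤ) (S : Set ℕ) : Prop :=
  ∀ T : Finset ℕ, {n : ℕ | ∀ t ∈ T, (Nat.Prime ((b : ℤ) ^ t * n + u).toNat ↔ t ∈ S)}.Infinite

open Classical in
/-- the elements `v` of `V` such that `S` has at least `m` elements in `[v, v + c]` -/
noncomputable def followed (S : Set ℕ) (V : Finset ℕ) (m c : ℕ) : Finset ℕ :=
  V.filter (fun v => m ≤ (S ∩ Set.Icc v (v + c)).ncard)

open Classical in
theorem result (b : ℕ) (u : ℤ) (hb : 2 ≤ b) (hbu : IsCoprime (b : ℤ) u) (k m : ℕ → ℕ) (ε : ℝ) (hε : 0 < ε) :
    ∃ C : ℕ → ℕ, ∀ V : ℕ → Finset ℕ, (∀ j, (V j).card ≤ k j) →
      ∀ (N : ℕ → ℕ) (p : ℕ → ℕ → ℝ), (∀ s j, 0 ≤ p s j) → (∀ s, ∑ j ∈ Finset.range (N s), p s j = 1) →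
      ∃ S : Set ℕ, ExactPattern b u S ∧ ∃ᶠ s in Filter.atTop, 1 - ε ≤
        ∑ j ∈ (Finset.range (N s)).filter
          (fun j => (1 - ε) * (V j).card ≤ (followed S (V j) (m j) (C j)).card), p s j :=
  Pool.Agent.N790.BP.arraysK b u hb hbu k m ε hε

end Pool.Agent.Results.MP_c77da8_nt.MostRowsOfPositions
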